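import Pool.Agent.H15.HM.Pos

/-!
# Ratios of weighted moments: the order of the solutions

For admissible weights the moment problem for `(λ_n)` always has a solution which is a distribution
of finite order on `[0,1]`, and a shift `(λ_(n+k))` of the sequence is always the moment sequence
of a function of bounded variation.  The order is not bounded: for every `k` there are admissible
weights (both nonincreasing polynomials) for which no distribution of order at most `k` solves the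
problem and for which `(λ_(n+k))` is not the moment sequence of a function of bounded variation.
The case `k = 0` of the last statement is the negative answer to Q2, and hence to Q1.
-/

set_option autoImplicit false

namespace Pool.Agent.Results.MP_d888c7_an.OrderOfSolutions

open Set Filter Topology MeasureTheory

/-- The class `Ω` of weights on `[0,1]`. -/
structure IsWeight (ω : ℝ → ℝ) : Prop where
  continuousOn : ContinuousOn ω (Icc 0 1)
  pos : ∀ x ∈ Icc (0 : ℝ) 1, 0 < ω x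
  map_zero : ω 0 = 1
  integrable : IntegrableOn ω (Icc 0 1)
  integrable' : IntegrableOn (fun x => |1 - ω x| * x⁻¹) (Ioc 0 1)

/-- The assumptions of the problem on the pair of weights `ω₁, ω₂`. -/
structure Admissible (ω₁ ω₂ : ℝ → ℝ) : Prop where
  weight₁ : IsWeight ω₁
  weight₂ : IsWeight ω₂
  mono₁ : MonotoneOn ω₁ (Icc 0 1) ∨ AntitoneOn ω₁ (Icc 0 1)
  mono₂ : MonotoneOn ω₂ (Icc 0 1) ∨ AntitoneOn ω₂ (Icc 0 1)
  ratio : AntitoneOn (fun x => ω₁ x / ω₂ x) (Icc 0 1)

/-- The sequence `λ_0 = 1`, `λ_n = (∫ ω₁ x^(n-1)) / (∫ ω₂ x^(n-1))`. -/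
noncomputable def lam (ω₁ ω₂ : ℝ → ℝ) (n : ℕ) : ℝ :=
  if n = 0 then 1 else
    (∫ x in (0 : ℝ)..1, ω₁ x * x ^ (n - 1)) * (∫ x in (0 : ℝ)..1, ω₂ x * x ^ (n - 1))⁻¹

/-- `I` is the Riemann-Stieltjes integral of `f` with respect to `β` over `[0,1]`: the limit of the
Riemann-Stieltjes sums over tagged partitions as the mesh tends to `0`. -/
def IsRSIntegral (f β : ℝ → ℝ) (I : ℝ) : Prop :=
  ∀ ε > 0, ∃ δ > 0, ∀ (N : ℕ) (t ξ : ℕ → ℝ), t 0 = 0 → t N = 1 →
    (∀ i < N, t i ≤ t (i + 1) ∧ t (i + 1) - t i < δ ∧ ξ i ∈ Icc (t i) (t (i + 1))) →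
    |∑ i ∈ Finset.range N, f (ξ i) * (β (t (i + 1)) - β (t i)) - I| < ε

/-- `a` is the moment sequence of a function of bounded variation on `[0,1]`. -/
def IsBVMoment (a : ℕ → ℝ) : Prop :=
  ∃ β : ℝ → ℝ, BoundedVariationOn β (Icc 0 1) ∧ ∀ n : ℕ, IsRSIntegral (fun x => x ^ n) β (a n)

/-- `a` is the moment sequence of a distribution of order at most `k` on `[0,1]`: the linear
functional `x ^ j ↦ a j` on the polynomials is continuous for the norm of `C^k[0,1]` (so that it
extends to a continuous linear functional on `C^k[0,1]`). -/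
def IsDistributionMoment (k : ℕ) (a : ℕ → ℝ) : Prop :=
  ∃ C : ℝ, ∀ (p : Polynomial ℝ) (M : ℝ),
    (∀ i ≤ k, ∀ x ∈ Icc (0 : ℝ) 1, |(Polynomial.derivative^[i] p).eval x| ≤ M) →
    |∑ j ∈ p.support, p.coeff j * a j| ≤ C * M

theorem toLib {ω : ℝ → ℝ} (h : IsWeight ω) :
    Pool.Agent.Results.MP_d888c7_an.NoBVSolution.IsWeight ω :=
  ⟨h.continuousOn, h.pos, h.map_zero, h.integrable, h.integrable'⟩

theorem ofOmega {ω : ℝ → ℝ} (h : Pool.Agent.Results.MP_d888c7_an.NoSolution.InOmega ω) :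
    IsWeight ω := by
  obtain ⟨h1, h2, h3, h4, h5⟩ := h
  exact ⟨h1, h2, h3, h1.integrableOn_Icc, h5⟩

theorem lam_eq (ω₁ ω₂ : ℝ → ℝ) :
    lam ω₁ ω₂ = Pool.Agent.Results.MP_d888c7_an.NoSolution.lam ω₁ ω₂ := by
  funext n
  cases n with
  | zero => rfl
  | succ n => rfl

theorem hasRS {f β : ℝ → ℝ} {I : ℝ} (h : IsRSIntegral f β I) :
    Pool.Agent.Results.MP_d888c7_an.NoSolution.HasRS f β I := by
  intro ε hε
  obtain ⟨δ, hδ, h1⟩ := h ε hε
  refine ⟨δ, hδ, fun n t ξ h0 hn ht => h1 n t ξ h0 hn fun i hi => ?_⟩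
  obtain ⟨h2, h3, h4⟩ := ht i hi
  exact ⟨h2.trans h3, h4, h2, h3⟩

/-- Let `ω₁, ω₂` be weights as in the problem and `λ` the sequence of the ratios of their moments.
(1) For every such pair there is a `k` such that the moment problem for `λ` is solved by a
distribution of order at most `k` on `[0,1]` and the shifted sequence `(λ_(n+k))` is the moment
sequence of a function of bounded variation.  (2) For every `k` there is a pair of nonincreasing
polynomial weights for which no distribution of order at most `k` solves the moment problem for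
`λ` and `(λ_(n+k))` is not the moment sequence of a function of bounded variation. -/
theorem result :
    (∀ ω₁ ω₂ : ℝ → ℝ, Admissible ω₁ ω₂ → ∃ k : ℕ,
      IsDistributionMoment k (lam ω₁ ω₂) ∧ IsBVMoment (fun n => lam ω₁ ω₂ (n + k))) ∧
    ∀ k : ℕ, ∃ ω₁ ω₂ : ℝ → ℝ, Admissible ω₁ ω₂ ∧ AntitoneOn ω₁ (Icc 0 1) ∧
      AntitoneOn ω₂ (Icc 0 1) ∧ (∃ p : Polynomial ℝ, ω₁ = fun x => p.eval x) ∧
      (∃ p : Polynomial ℝ, ω₂ = fun x => p.eval x) ∧
      ¬ IsDistributionMoment k (lam ω₁ ω₂) ∧ ¬ IsBVMoment (fun n => lam ω₁ ω₂ (n + k)) := by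
  refine ⟨fun ω₁ ω₂ h => ?_, fun k => ?_⟩
  · have h' : Pool.Agent.Y257.HM.Admissible ω₁ ω₂ :=
      ⟨toLib h.weight₁, toLib h.weight₂, h.mono₁, h.mono₂, h.ratio⟩
    obtain ⟨k, h1, h2⟩ := Pool.Agent.H15.HM.pos h'
    exact ⟨k, h1, h2⟩
  · obtain ⟨ω₁, ω₂, ⟨h1, h2, h3, h4, h5⟩, h6, h7, h8, h9, h10, h11⟩ := Pool.Agent.H15.HM.neg' k
    refine ⟨ω₁, ω₂, ⟨ofOmega h1, ofOmega h2, h3, h4, h5⟩, h6, h7, h8, h9, ?_, ?_⟩
    · rw [lam_eq]
      exact h10
    · rintro ⟨β, hβ, h⟩
      refine h11 (Pool.Agent.H15.HM.bt_unshift_iter ?_)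
      have h12 := Pool.Agent.Results.MP_d888c7_an.NoSolution.bt_bounded hβ
        (fun n => hasRS (h n))
      rw [lam_eq] at h12
      exact h12

end Pool.Agent.Results.MP_d888c7_an.OrderOfSolutions
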